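import Mathlib.Data.Nat.Pairing
import Pool.Agent.Lib.TypedZF.Basic

/-!
Coded types: natural numbers, definable subsets, definable functions, lists, elements of a set.
Recursion for definable functions.
-/

set_option synthInstance.maxSize 16384

namespace Pool.Agent.Lib.TypedZF

open ZFSet Pool.Agent.Lib.Forcing

variable {N : Set ZFSet.{0}} [ZF N]
variable {X Y Z W : Type} [Coded N X] [Coded N Y] [Coded N Z] [Coded N W]

noncomputable instance : Coded N ℕ where
  code n := Ordinal.toZFSet n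
  inj := fun _ _ h => by exact_mod_cast Ordinal.toZFSet_injective h
  mem := by
    convert omega_mem (M := N) using 1
    ext z
    rw [mem_range, mem_omega]

theorem cd_nat (n : ℕ) : cd N n = Ordinal.toZFSet n := rfl

theorem car_nat : car N ℕ = omega := by
  ext z
  rw [mem_car, mem_omega]
  rfl

theorem cd_nat_mem {m n : ℕ} : cd N m ∈ cd N n ↔ m < n := by
  rw [cd_nat, cd_nat, Ordinal.toZFSet_mem_toZFSet_iff]
  exact Nat.cast_lt

theorem cd_nat_subset {m n : ℕ} : cd N m ⊆ cd N n ↔ m ≤ n := by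
  rw [cd_nat, cd_nat, Ordinal.toZFSet_subset_toZFSet_iff]
  exact Nat.cast_le

/-- Membership between codes is definable. -/
theorem defF_cd_mem {f : W → X} {g : W → Y} (hf : DefF N f) (hg : DefF N g) :
    DefF N (fun w => cd N (f w) ∈ cd N (g w)) := by
  have h : DefF N (fun z : X × Y => cd N z.1 ∈ cd N z.2) :=
    DefP.defF (DefP.of_df (fun z => ∃ a b, z = pair a b ∧ a ∈ b) fun z => by
      rw [cd_prod']
      simp only [pair_inj]
      exact ⟨fun h => ⟨_, _, ⟨rfl, rfl⟩, h⟩, fun ⟨a, b, ⟨h1, h2⟩, h⟩ => by rwa [h1, h2]⟩)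
  exact h.comp (hf.prodMk hg)

theorem defF_cd_eq {f : W → X} {g : W → Y} (hf : DefF N f) (hg : DefF N g) :
    DefF N (fun w => cd N (f w) = cd N (g w)) := by
  have h : DefF N (fun z : X × Y => cd N z.1 = cd N z.2) :=
    DefP.defF (DefP.of_df (fun z => ∃ a b, z = pair a b ∧ a = b) fun z => by
      rw [cd_prod']
      simp only [pair_inj]
      exact ⟨fun h => ⟨_, _, ⟨rfl, rfl⟩, h⟩, fun ⟨a, b, ⟨h1, h2⟩, h⟩ => by rwa [h1, h2]⟩)
  exact h.comp (hf.prodMk hg)

/-- Membership of the code in a set of `N`, as a constant. -/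
def In (N : Set ZFSet.{0}) {X : Type} [Coded N X] (a : ZFSet.{0}) (x : X) : Prop := cd N x ∈ a

theorem DefF.isIn {a : ZFSet.{0}} (ha : a ∈ N) : DefF N (In N a : X → Prop) := defF_mem ha

@[fun_prop] theorem DefF.natLt {f g : W → ℕ} (hf : DefF N f) (hg : DefF N g) :
    DefF N (fun w => f w < g w) :=
  (defF_cd_mem hf hg).congr_iff fun _ => cd_nat_mem

@[fun_prop] theorem DefF.natLe {f g : W → ℕ} (hf : DefF N f) (hg : DefF N g) :
    DefF N (fun w => f w ≤ g w) :=
  (hg.natLt hf).not.congr_iff fun _ => not_lt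

theorem DefF.succ {f : W → ℕ} (hf : DefF N f) : DefF N (fun w => f w + 1) :=
  DefF.of_rel (fun w m => f w < m ∧ ¬ ∃ k, f w < k ∧ k < m) (by fun_prop) fun w m => by
    constructor
    · rintro rfl
      exact ⟨by omega, fun ⟨k, h1, h2⟩ => by omega⟩
    · rintro ⟨h1, h2⟩
      by_contra h
      exact h2 ⟨f w + 1, by omega, by omega⟩

/-- Coding along an injection with definable range. -/
@[reducible] noncomputable def Coded.ofInj {Y : Type} (ι : Y → X) (hι : Function.Injective ι)
    (h : DefF N (fun x => ∃ y, ι y = x)) : Coded N Y where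
  code y := cd N (ι y)
  inj := fun _ _ h => hι (Coded.inj h)
  mem := by
    obtain ⟨a, ha, h⟩ := h.defP
    have := InM.mk ha
    convert sep_mem (M := N) (fun z => z ∈ a) (car_mem X) using 1
    ext z
    rw [mem_range, mem_sep, mem_car]
    constructor
    · rintro ⟨y, rfl⟩
      exact ⟨⟨_, rfl⟩, (h _).1 ⟨y, rfl⟩⟩
    · rintro ⟨⟨x, rfl⟩, hx⟩
      obtain ⟨y, rfl⟩ := (h x).2 hx
      exact ⟨y, rfl⟩

theorem defF_of_cd_eq {ι : Y → X} (h : ∀ y, cd N (ι y) = cd N y) : DefF N ι :=
  DefF.of_rel (fun y x => cd N y = cd N x) (defF_cd_eq DefF.fst DefF.snd) fun y x => by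
    rw [← h, cd_inj]

theorem DefF.of_inj {ι : Y → X} (hι : Function.Injective ι) (h : DefF N ι) {f : W → Y}
    (hf : DefF N (fun w => ι (f w))) : DefF N f :=
  DefF.of_rel (fun w y => ι (f w) = ι y) (DefF.eq (hf.comp DefF.fst) (h.comp DefF.snd))
    fun _ _ => hι.eq_iff.symm

/-- Definable subsets. -/
@[ext] structure DSet (N : Set ZFSet.{0}) [ZF N] (X : Type) [Coded N X] where
  Mem : X → Prop
  def_mem : DefF N Mem

noncomputable instance : Coded N (DSet N X) where
  code S := (car N X).sep fun z => ∃ x, S.Mem x ∧ cd N x = z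
  inj := fun S S' h => by
    ext x
    have := congrArg (fun a => cd N x ∈ a) h
    simpa [mem_sep, cd_mem_car] using this
  mem := by
    obtain ⟨b, hb, H⟩ := ZF.pow (N := N) _ (car_mem X)
    convert sep_mem (M := N) (fun z => z ⊆ car N X) hb using 1
    ext z
    rw [mem_range, mem_sep]
    constructor
    · rintro ⟨S, rfl⟩
      refine ⟨H _ ?_ sep_subset, sep_subset⟩
      obtain ⟨a, ha, h⟩ := S.def_mem.defP
      have := InM.mk ha
      convert sep_mem (M := N) (fun z => z ∈ a) (car_mem X) using 1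
      ext z
      simp only [mem_sep, and_congr_right_iff]
      intro hz
      obtain ⟨x, rfl⟩ := mem_car.1 hz
      simp [h]
    · rintro ⟨h1, h2⟩
      refine ⟨⟨fun x => cd N x ∈ z, defF_mem (mem_of_mem hb h1)⟩, ?_⟩
      ext w
      rw [mem_sep]
      constructor
      · rintro ⟨-, x, hx, rfl⟩
        exact hx
      · intro hw
        obtain ⟨x, rfl⟩ := mem_car.1 (h2 hw)
        exact ⟨cd_mem_car x, x, hw, rfl⟩

theorem cd_mem_dset {S : DSet N X} {x : X} : cd N x ∈ cd N S ↔ S.Mem x := by
  change cd N x ∈ (car N X).sep _ ↔ _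
  simp [mem_sep, cd_mem_car]

theorem cd_dset_subset (S : DSet N X) : cd N S ⊆ car N X := sep_subset

@[fun_prop] theorem DefF.mem {S : W → DSet N X} {f : W → X} (hS : DefF N S) (hf : DefF N f) :
    DefF N (fun w => (S w).Mem (f w)) :=
  (defF_cd_mem hf hS).congr_iff fun _ => cd_mem_dset

theorem DefF.of_mem {S : W → DSet N X} (h : DefF N (fun z : W × X => (S z.1).Mem z.2)) :
    DefF N S :=
  DefF.of_rel (fun w A => ∀ x, (S w).Mem x ↔ A.Mem x)
    (by
      simp only [all_eq]
      refine DefF.all (DefF.iff ?_ (by fun_prop))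
      exact h.comp (f := fun z : (W × DSet N X) × X => (z.1.1, z.2)) (by fun_prop))
    fun w A => by rw [DSet.ext_iff, funext_iff]; simp

/-- A definable relation gives a definable family of definable sets. -/
theorem exists_dset {R : W → X → Prop} (h : DefF N (fun z : W × X => R z.1 z.2)) :
    ∃ S : W → DSet N X, DefF N S ∧ ∀ w x, (S w).Mem x ↔ R w x :=
  ⟨fun w => ⟨R w, h.comp (f := fun x => (w, x)) (by fun_prop)⟩, DefF.of_mem h,
    fun _ _ => Iff.rfl⟩

/-- Definable functions. -/
@[ext] structure DFun (N : Set ZFSet.{0}) [ZF N] (X Y : Type) [Coded N X] [Coded N Y] where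
  app : X → Y
  def_app : DefF N app

/-- The graph of a definable function. -/
def DFun.graph (f : DFun N X Y) : DSet N (X × Y) :=
  ⟨fun z => f.app z.1 = z.2, by have := f.def_app; fun_prop⟩

theorem DFun.graph_inj : Function.Injective (DFun.graph : DFun N X Y → _) := fun f g h => by
  ext x
  have := congrArg (fun S : DSet N (X × Y) => S.Mem (x, g.app x)) h
  simpa [DFun.graph] using this

noncomputable instance : Coded N (DFun N X Y) :=
  Coded.ofInj DFun.graph DFun.graph_inj <| by
    have h : DefF N (fun S : DSet N (X × Y) =>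
        ∀ x, ∃ y, S.Mem (x, y) ∧ ∀ y', S.Mem (x, y') → y = y') := by
      simp only [all_eq, imp_eq]
      fun_prop
    refine h.congr_iff fun S => ⟨fun h => ?_, ?_⟩
    · choose f hf using h
      have h2 : ∀ x y, f x = y ↔ S.Mem (x, y) := fun x y =>
        ⟨fun h => h ▸ (hf x).1, (hf x).2 y⟩
      have h3 := S.def_mem
      refine ⟨⟨f, DefF.of_rel _ (by fun_prop) h2⟩, ?_⟩
      ext z
      exact h2 z.1 z.2
    · rintro ⟨f, rfl⟩ x
      exact ⟨f.app x, rfl, fun _ h => h⟩

@[fun_prop] theorem DefF.graph : DefF N (DFun.graph : DFun N X Y → _) :=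
  defF_of_cd_eq fun _ => rfl

@[fun_prop] theorem DefF.app {F : W → DFun N X Y} {f : W → X} (hF : DefF N F) (hf : DefF N f) :
    DefF N (fun w => (F w).app (f w)) :=
  DefF.of_rel (fun w y => (F w).graph.Mem (f w, y))
    (DefF.mem (DefF.graph.comp (hF.comp DefF.fst)) (by fun_prop)) fun _ _ => Iff.rfl

theorem DefF.of_app {F : W → DFun N X Y} (h : DefF N (fun z : W × X => (F z.1).app z.2)) :
    DefF N F :=
  DefF.of_inj DFun.graph_inj DefF.graph (DefF.of_mem (by
    change DefF N (fun z : W × X × Y => (F z.1).app z.2.1 = z.2.2)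
    exact DefF.eq (h.comp (f := fun z : W × X × Y => (z.1, z.2.1)) (by fun_prop)) (by fun_prop)))

theorem exists_dfun {F : W → X → Y} (h : DefF N (fun z : W × X => F z.1 z.2)) :
    ∃ G : W → DFun N X Y, DefF N G ∧ ∀ w x, (G w).app x = F w x :=
  ⟨fun w => ⟨F w, h.comp (f := fun x => (w, x)) (by fun_prop)⟩, DefF.of_app h, fun _ _ => rfl⟩

/-- The axiom of choice for definable relations, in a model with choice. -/
theorem choice (ac : ∀ x ∈ N, ∅ ∉ x → ∃ f ∈ N, IsFunc x (⋃₀ x) f ∧ ∀ y z, pair y z ∈ f → z ∈ y)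
    {R : X → Y → Prop} (hR : DefF N (fun z : X × Y => R z.1 z.2))
    (h : ∀ x, ∃ y, R x y) : ∃ f : X → Y, DefF N f ∧ ∀ x, R x (f x) := by
  obtain ⟨S, hS, HS⟩ := exists_dset hR
  let A : DSet N (DSet N Y) := ⟨fun T => ∃ x, S x = T, by fun_prop⟩
  obtain ⟨c, hc, h1, h2⟩ := ac (cd N A) (cd_mem A) (by
    intro h0
    obtain ⟨T, hT⟩ := mem_car.1 (cd_dset_subset A h0)
    rw [← hT, cd_mem_dset] at h0
    obtain ⟨x, rfl⟩ := h0
    obtain ⟨y, hy⟩ := h x
    exact notMem_empty _ (hT ▸ cd_mem_dset.2 ((HS x y).2 hy)))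
  have h3 : ∀ x, ∃ y : Y, In N c (S x, y) ∧ ∀ y' : Y, In N c (S x, y') → y = y' := by
    intro x
    obtain ⟨z, hz, hz'⟩ := h1.2 (cd N (S x)) (cd_mem_dset.2 ⟨x, rfl⟩)
    obtain ⟨y, rfl⟩ := mem_car.1 (cd_dset_subset _ (h2 _ _ hz))
    exact ⟨y, hz, fun y' h => Coded.inj (hz' _ h).symm⟩
  choose f hf using h3
  have h4 : DefF N (In N c : DSet N Y × Y → Prop) := DefF.isIn hc
  refine ⟨f, DefF.of_rel (fun x y => In N c (S x, y)) (by fun_prop)
    fun x y => ⟨fun h => h ▸ (hf x).1, (hf x).2 y⟩, fun x => ?_⟩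
  exact (HS _ _).1 (cd_mem_dset.1 (h2 _ _ (hf x).1))

theorem defF_finite {S : Set X} (h : S.Finite) : DefF N (fun x => x ∈ S) := by
  induction S, h using Set.Finite.induction_on with
  | empty => exact DefF.const False
  | @insert a s _ _ ih =>
    exact (DefF.or (DefF.eq DefF.id (DefF.const a)) ih).congr_iff fun _ => Set.mem_insert_iff.symm

/-- The entry of `l` at position `i` is `x`. -/
def At {X : Type} (l : List X) (i : ℕ) (x : X) : Prop := l[i]? = some x

theorem finite_at {X : Type} (l : List X) : {z : ℕ × X | At l z.1 z.2}.Finite := by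
  refine (((Set.finite_lt_nat l.length).prod l.finite_toSet)).subset fun z hz => ?_
  obtain ⟨h, h'⟩ := List.getElem?_eq_some_iff.1 hz
  exact ⟨h, h' ▸ List.getElem_mem h⟩

/-- The graph of a list. -/
def listGraph (l : List X) : DSet N (ℕ × X) :=
  ⟨fun z => At l z.1 z.2, defF_finite (finite_at l)⟩

theorem list_ext_at {X : Type} {l l' : List X} (h : ∀ i x, At l i x ↔ At l' i x) : l = l' :=
  List.ext_getElem? fun i => Option.ext (h i)

theorem listGraph_inj : Function.Injective (listGraph : List X → DSet N (ℕ × X)) :=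
  fun _ _ h => list_ext_at fun i x =>
    eq_iff_iff.1 (congrArg (fun S : DSet N (ℕ × X) => S.Mem (i, x)) h)

noncomputable instance : Coded N (List X) :=
  Coded.ofInj listGraph listGraph_inj <| by
    have h : DefF N (fun S : DSet N (ℕ × X) => ∃ n : ℕ, (∀ i x, S.Mem (i, x) → i < n) ∧
        ∀ i, i < n → ∃ y, S.Mem (i, y) ∧ ∀ y', S.Mem (i, y') → y = y') := by
      simp only [all_eq, imp_eq]
      fun_prop
    refine h.congr_iff fun S => ⟨?_, ?_⟩
    · rintro ⟨n, h1, h2⟩
      choose f hf using h2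
      refine ⟨List.ofFn fun i : Fin n => f i i.2, ?_⟩
      ext ⟨i, x⟩
      simp only [listGraph, At, List.getElem?_ofFn]
      constructor
      · intro h
        split_ifs at h with hi
        exact Option.some.inj h ▸ (hf i hi).1
      · intro h
        rw [dif_pos (h1 i x h), (hf i (h1 i x h)).2 x h]
    · rintro ⟨l, rfl⟩
      refine ⟨l.length, fun i x h => (List.getElem?_eq_some_iff.1 h).1, fun i hi =>
        ⟨l[i], List.getElem?_eq_getElem hi, fun y h => ?_⟩⟩
      exact (List.getElem?_eq_some_iff.1 h).2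

@[fun_prop] theorem DefF.listGraph : DefF N (listGraph : List X → DSet N (ℕ × X)) :=
  defF_of_cd_eq fun _ => rfl

@[fun_prop] theorem DefF.at {l : W → List X} {i : W → ℕ} {x : W → X} (hl : DefF N l)
    (hi : DefF N i) (hx : DefF N x) : DefF N (fun w => At (l w) (i w) (x w)) := by
  exact DefF.mem (DefF.listGraph.comp hl) (hi.prodMk hx)

theorem DefF.of_at {l : W → List X} (h : DefF N (fun z : W × ℕ × X => At (l z.1) z.2.1 z.2.2)) :
    DefF N l :=
  DefF.of_inj listGraph_inj DefF.listGraph (DefF.of_mem h)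

@[fun_prop] theorem DefF.listMem {l : W → List X} {x : W → X} (hl : DefF N l) (hx : DefF N x) :
    DefF N (fun w => x w ∈ l w) :=
  (by fun_prop : DefF N (fun w => ∃ i, At (l w) i (x w))).congr_iff fun _ =>
    List.mem_iff_getElem?.symm

@[fun_prop] theorem DefF.length {l : W → List X} (hl : DefF N l) :
    DefF N (fun w => (l w).length) :=
  DefF.of_rel (fun w n => ¬ ∃ i, ¬ (i < n ↔ ∃ x, At (l w) i x)) (by fun_prop) fun w n => by
    push Not
    have h : ∀ i, (∃ x, At (l w) i x) ↔ i < (l w).length := fun i =>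
      ⟨fun ⟨_, h⟩ => (List.getElem?_eq_some_iff.1 h).1, fun h => ⟨_, List.getElem?_eq_getElem h⟩⟩
    simp only [h]
    constructor
    · rintro rfl i
      rfl
    · intro h
      have h1 := h n
      have h2 := h (l w).length
      omega

/-- Primitive recursion with parameters. -/
theorem DefF.natRec {a : W → X} {s : W → ℕ → X → X} (ha : DefF N a)
    (hs : DefF N (fun z : W × ℕ × X => s z.1 z.2.1 z.2.2)) :
    DefF N (fun z : W × ℕ => (Nat.rec (a z.1) (s z.1) z.2 : X)) := by
  have h1 : DefF N (fun n : ℕ => n + 1) := DefF.succ DefF.id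
  refine DefF.of_rel (fun z y => ∃ l : List X, At l 0 (a z.1) ∧ At l z.2 y ∧
    ∀ i x, i < z.2 → At l i x → At l ((fun n : ℕ => n + 1) i) (s z.1 i x)) ?_ ?_
  · generalize (fun n : ℕ => n + 1) = S at h1
    simp only [all_eq, imp_eq]
    fun_prop
  · rintro ⟨w, n⟩ y
    constructor
    · rintro rfl
      have h2 : ∀ i x, At ((List.range (n + 1)).map fun i => (Nat.rec (a w) (s w) i : X)) i x ↔
          i < n + 1 ∧ (Nat.rec (a w) (s w) i : X) = x := by
        intro i x
        simp only [At, List.getElem?_map, Option.map_eq_some_iff]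
        constructor
        · rintro ⟨j, h1, h2⟩
          obtain ⟨h3, rfl⟩ := List.getElem?_eq_some_iff.1 h1
          simp only [List.getElem_range] at h2
          exact ⟨by simpa using h3, h2⟩
        · rintro ⟨h1, h2⟩
          exact ⟨i, by rw [List.getElem?_range h1], h2⟩
      refine ⟨_, (h2 _ _).2 ⟨by omega, rfl⟩, (h2 _ _).2 ⟨by simp, rfl⟩, fun i x hi h => ?_⟩
      exact (h2 _ _).2 ⟨by simpa using hi, by rw [← ((h2 _ _).1 h).2]⟩
    · rintro ⟨l, h2, h3, h4⟩
      have h5 : ∀ i, i ≤ n → At l i (Nat.rec (a w) (s w) i : X) := by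
        intro i
        induction i with
        | zero => exact fun _ => h2
        | succ i ih => exact fun h => h4 i _ h (ih (by omega))
      exact Option.some.inj ((h5 n le_rfl).symm.trans h3)

@[fun_prop] theorem DefF.add {f g : W → ℕ} (hf : DefF N f) (hg : DefF N g) :
    DefF N (fun w => f w + g w) := by
  have h := DefF.natRec (N := N) (W := ℕ) (a := fun m => m) (s := fun _ _ x => x + 1)
    DefF.id (DefF.succ (by fun_prop))
  refine (h.comp (hf.prodMk hg)).congr fun w => ?_
  dsimp only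
  induction g w with
  | zero => rfl
  | succ n ih => exact congrArg (· + 1) ih

@[fun_prop] theorem DefF.mul {f g : W → ℕ} (hf : DefF N f) (hg : DefF N g) :
    DefF N (fun w => f w * g w) := by
  have h := DefF.natRec (N := N) (W := ℕ) (a := fun _ => 0) (s := fun m _ x => x + m)
    (by fun_prop) (by fun_prop)
  refine (h.comp (hf.prodMk hg)).congr fun w => ?_
  dsimp only
  induction g w with
  | zero => rfl
  | succ n ih => exact congrArg (· + f w) ih

@[fun_prop] theorem DefF.natPair {f g : W → ℕ} (hf : DefF N f) (hg : DefF N g) :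
    DefF N (fun w => Nat.pair (f w) (g w)) := by
  unfold Nat.pair
  fun_prop

@[fun_prop] theorem DefF.unpair : DefF N Nat.unpair :=
  DefF.of_rel (fun n z => Nat.pair z.1 z.2 = n) (by fun_prop) fun n z => by
    constructor
    · rintro rfl
      exact Nat.pair_unpair n
    · rintro rfl
      exact Nat.unpair_pair _ _

@[fun_prop] theorem DefF.cons {x : W → X} {l : W → List X} (hx : DefF N x) (hl : DefF N l) :
    DefF N (fun w => x w :: l w) :=
  DefF.of_at ((by fun_prop : DefF N (fun z : W × ℕ × X => (z.2.1 = 0 ∧ x z.1 = z.2.2) ∨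
      ∃ j, z.2.1 = j + 1 ∧ At (l z.1) j z.2.2)).congr_iff fun ⟨w, i, y⟩ => by
    cases i <;> simp [At])

@[fun_prop] theorem DefF.append {l l' : W → List X} (hl : DefF N l) (hl' : DefF N l') :
    DefF N (fun w => l w ++ l' w) :=
  DefF.of_at ((by fun_prop : DefF N (fun z : W × ℕ × X => At (l z.1) z.2.1 z.2.2 ∨
      ∃ j, z.2.1 = (l z.1).length + j ∧ At (l' z.1) j z.2.2)).congr_iff fun ⟨w, i, y⟩ => by
    simp only [At, List.getElem?_append]
    split_ifs with h
    · exact ⟨fun h' => h'.elim (fun h => h) fun ⟨j, h1, _⟩ => by omega, Or.inl⟩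
    · constructor
      · rintro (h' | ⟨j, rfl, h'⟩)
        · exact (h (List.getElem?_eq_some_iff.1 h').1).elim
        · simpa using h'
      · exact fun h' => Or.inr ⟨_, by omega, h'⟩)

@[fun_prop] theorem DefF.map {F : W → X → Y} {l : W → List X}
    (hF : DefF N (fun z : W × X => F z.1 z.2)) (hl : DefF N l) :
    DefF N (fun w => (l w).map (F w)) :=
  DefF.of_at ((by fun_prop : DefF N (fun z : W × ℕ × Y =>
      ∃ x, At (l z.1) z.2.1 x ∧ F z.1 x = z.2.2)).congr_iff fun ⟨w, i, y⟩ => by
    simp [At])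

/-- The elements of a set, as a small type. -/
def El (a : ZFSet.{0}) : Type := Shrink.{0} a

/-- The set an element stands for. -/
noncomputable def El.val {a : ZFSet.{0}} (x : El a) : ZFSet.{0} := ((equivShrink a).symm x).1

theorem El.val_mem {a : ZFSet.{0}} (x : El a) : x.val ∈ a := ((equivShrink a).symm x).2

theorem El.val_inj {a : ZFSet.{0}} : Function.Injective (El.val : El a → _) :=
  fun _ _ h => (equivShrink a).symm.injective (Subtype.ext h)

theorem El.exists_val {a z : ZFSet.{0}} (h : z ∈ a) : ∃ x : El a, x.val = z :=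
  ⟨equivShrink a ⟨z, h⟩, by simp [El.val]⟩

theorem El.range_val (a : ZFSet.{0}) : range (El.val : El a → _) = a := by
  ext z
  rw [mem_range]
  exact ⟨fun ⟨x, h⟩ => h ▸ x.val_mem, El.exists_val⟩

noncomputable instance {M : Set ZFSet.{0}} {a : ZFSet.{0}} [h : InM M a] : Coded M (El a) where
  code := El.val
  inj := El.val_inj
  mem := by rw [El.range_val]; exact h.out

theorem car_el {M : Set ZFSet.{0}} {a : ZFSet.{0}} [InM M a] : car M (El a) = a :=
  El.range_val a

end Pool.Agent.Lib.TypedZF
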